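import Pool.Agent.IG19.Main

/-!
# MP_d9027c_co: the value of the isolating game for large bias

`f n b` is the value of the strict `(1:b)` isolating game on the edges of the complete graph on `n`
vertices (`F` starts and claims one edge per turn, `S` claims `b` edges per turn, `S` maximises the number
of isolated vertices of the graph of `F`).
-/

namespace Pool.Agent.Results.MP_d9027c_co.LargeBias

open Pool.Agent.IG19

/-- `f n b` is the largest number of isolated vertices that `S` can guarantee; for all `n ≥ 2`, `b ≥ 1`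
`n - 2 ⌈C(n,2)/(b+1)⌉ ≤ f(n,b) ≤ n - 2 ⌈C(n,2)/(b+2n)⌉`, and consequently
`n - f(n,b) = (1 + o(1)) n²/b` when `b/n → ∞` and `n²/b → ∞`. -/
theorem result :
    (∀ n b : ℕ, IsGreatest {k : ℕ | Guar n b k true ∅ ∅} (f n b)) ∧
    (∀ n b : ℕ, 2 ≤ n → 1 ≤ b →
      (n : ℤ) - 2 * ⌈(n.choose 2 : ℚ) / (b + 1)⌉ ≤ (f n b : ℤ) ∧
      (f n b : ℤ) ≤ (n : ℤ) - 2 * ⌈(n.choose 2 : ℚ) / (b + 2 * n)⌉) ∧
    (∀ ε : ℝ, 0 < ε → ∃ C : ℝ, 0 < C ∧ ∀ n b : ℕ, 2 ≤ n → C * n ≤ b → C * b ≤ (n : ℝ) ^ 2 →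
      |((n : ℝ) - f n b) / ((n : ℝ) ^ 2 / b) - 1| ≤ ε) :=
  ⟨isGreatest_f, large_bias, large_bias_asymptotic⟩

end Pool.Agent.Results.MP_d9027c_co.LargeBias
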