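import Pool.Agent.IG71.SNum

/-!
# MP_d9027c_co: the value of the isolating game to second order

`f n b` is the value of the strict `(1:b)` isolating game on the edges of the complete graph on `n`
vertices (`F` starts and claims one edge per turn, `S` claims `b` edges per turn, `S` maximises the number
of isolated vertices of the graph of `F`).
-/

namespace Pool.Agent.Results.MP_d9027c_co.SecondOrder

open Pool.Agent.IG19

/-- `f n b` is the largest number of isolated vertices that `S` can guarantee, and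
`f(n,b) = n - n²/b + (2/3) n³/b² + O(1 + n⁴/b³)` uniformly in `n, b ≥ 1`. -/
theorem result :
    (∀ n b : ℕ, IsGreatest {k : ℕ | Guar n b k true ∅ ∅} (f n b)) ∧
    (∃ C : ℝ, 0 < C ∧ ∀ n b : ℕ, 1 ≤ n → 1 ≤ b →
      |((n : ℝ) - f n b) - ((n : ℝ) ^ 2 / b - 2 / 3 * ((n : ℝ) ^ 3 / (b : ℝ) ^ 2))| ≤
        C * (1 + (n : ℝ) ^ 4 / (b : ℝ) ^ 3)) :=
  ⟨isGreatest_f, Pool.Agent.IG71.second_order⟩

end Pool.Agent.Results.MP_d9027c_co.SecondOrder
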