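import Pool.Agent.IG19.Main

/-!
# MP_d9027c_co: the value of the isolating game for bias at most n

`f n b` is the value of the strict `(1:b)` isolating game on the edges of the complete graph on `n`
vertices (`F` starts and claims one edge per turn, `S` claims `b` edges per turn, `S` maximises the number
of isolated vertices of the graph of `F`).
-/

namespace Pool.Agent.Results.MP_d9027c_co.SmallBias

open Pool.Agent.IG19

/-- `f n b` is the largest number of isolated vertices that `S` can guarantee.  For `1 ≤ b ≤ n` put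
`K = n exp (-n/b)` and `L = log (e n/b)`.  Then `f(n,b) ≤ exp 12 (n/b) K`, `f(n,b) ≤ exp 70 L^5 K`, and
`f(n,b) ≥ K/1000` whenever `K ≥ 1000 L`. -/
theorem result :
    (∀ n b : ℕ, IsGreatest {k : ℕ | Guar n b k true ∅ ∅} (f n b)) ∧
    (∀ n b : ℕ, 2 ≤ n → 1 ≤ b → b ≤ n →
      (f n b : ℝ) ≤ Real.exp 12 * ((n : ℝ) / b) * (n * Real.exp (-((n : ℝ) / b))) ∧
      (f n b : ℝ) ≤ Real.exp 70 * Real.log (Real.exp 1 * n / b) ^ 5 *
        (n * Real.exp (-((n : ℝ) / b))) ∧
      (1000 * Real.log (Real.exp 1 * n / b) ≤ n * Real.exp (-((n : ℝ) / b)) →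
        1 / 1000 * (n * Real.exp (-((n : ℝ) / b))) ≤ (f n b : ℝ))) :=
  ⟨isGreatest_f, small_bias⟩

end Pool.Agent.Results.MP_d9027c_co.SmallBias
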