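import Pool.Agent.IG19.Main

/-!
# MP_d9027c_co: the threshold bias for isolating a vertex

`f n b` is the value of the strict `(1:b)` isolating game on the edges of the complete graph on `n`
vertices (`F` starts and claims one edge per turn, `S` claims `b` edges per turn, `S` maximises the number
of isolated vertices of the graph of `F`).
-/

namespace Pool.Agent.Results.MP_d9027c_co.Threshold

open Pool.Agent.IG19

/-- `f n b` is the largest number of isolated vertices that `S` can guarantee.  For `1 ≤ b ≤ n`:
`f(n,b) = 0` if `n/b ≥ log n + log log (e n/b) + 8`, and `f(n,b) ≥ 1` if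
`n/b ≤ log n - log log (e n/b) - log 1000`. -/
theorem result :
    (∀ n b : ℕ, IsGreatest {k : ℕ | Guar n b k true ∅ ∅} (f n b)) ∧
    (∀ n b : ℕ, 2 ≤ n → 1 ≤ b → b ≤ n →
      (Real.log n + Real.log (Real.log (Real.exp 1 * n / b)) + 8 ≤ (n : ℝ) / b → f n b = 0) ∧
      ((n : ℝ) / b + Real.log (Real.log (Real.exp 1 * n / b)) + Real.log 1000 ≤ Real.log n →
        1 ≤ f n b)) :=
  ⟨isGreatest_f, threshold⟩

end Pool.Agent.Results.MP_d9027c_co.Threshold
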